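import Pool.Agent.W269.BL.Stm

set_option autoImplicit false

open Polynomial

namespace Pool.Agent.W269.BL.CNT

universe u

lemma finite_natDegree_le {K : Type u} [Field K] [Finite K] (m : ℕ) :
    {h : K[X] | h.natDegree ≤ m}.Finite := by
  haveI : Finite (degreeLT K (m + 1)) := Finite.of_equiv _ (degreeLTEquiv K (m + 1)).toEquiv.symm
  refine Set.Finite.subset (Set.toFinite ((degreeLT K (m + 1) : Submodule K K[X]) : Set K[X])) ?_
  intro h hh
  simp only [SetLike.mem_coe, mem_degreeLT]
  refine lt_of_le_of_lt degree_le_natDegree ?_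
  have : h.natDegree ≤ m := hh
  exact_mod_cast Nat.lt_succ_of_le this

theorem main : StmCNT.{u} := by
  intro K _ _ S h₀ hS m hm
  set k := m - S.natDegree with hk
  let g : (Fin k → K) → K[X] := fun v => (((degreeLTEquiv K k).symm v : degreeLT K k) : K[X])
  have hgd : ∀ v, (g v).degree < k := fun v => mem_degreeLT.1 ((degreeLTEquiv K k).symm v).2
  have hginj : Function.Injective g := fun v w h =>
    (degreeLTEquiv K k).symm.injective (Subtype.ext h)
  let f : (Fin k → K) → K[X] := fun v => S * (X ^ k + g v) + h₀ %ₘ S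
  have hXg : ∀ v, (X ^ k + g v).Monic := fun v => monic_X_pow_add (hgd v)
  have hXgd : ∀ v, (X ^ k + g v).natDegree = k := fun v => by
    rw [natDegree_add_eq_left_of_degree_lt (by rw [degree_X_pow]; exact hgd v), natDegree_X_pow]
  have hSg : ∀ v, (S * (X ^ k + g v)).Monic := fun v => hS.mul (hXg v)
  have hSgd : ∀ v, (S * (X ^ k + g v)).natDegree = m := fun v => by
    rw [hS.natDegree_mul (hXg v), hXgd]; omega
  have hdeg : ∀ v, (h₀ %ₘ S).degree < (S * (X ^ k + g v)).degree := fun v => by
    refine lt_of_lt_of_le (degree_modByMonic_lt _ hS) ?_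
    rw [degree_eq_natDegree (hSg v).ne_zero, degree_eq_natDegree hS.ne_zero, hSgd]
    exact_mod_cast hm
  have hfm : ∀ v, (f v).Monic := fun v => (hSg v).add_of_left (hdeg v)
  have hfd : ∀ v, (f v).natDegree = m := fun v => by
    rw [← hSgd v]
    exact natDegree_add_eq_left_of_degree_lt (hdeg v)
  have hfS : ∀ v, S ∣ f v - h₀ := fun v => by
    have h1 := modByMonic_add_div h₀ S
    refine ⟨(X ^ k + g v) - h₀ /ₘ S, ?_⟩
    have h2 : f v - h₀ = S * (X ^ k + g v) + h₀ %ₘ S - (h₀ %ₘ S + S * (h₀ /ₘ S)) := by rw [h1]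
    rw [h2]; ring
  have hinj : Function.Injective f := by
    intro v w h
    apply hginj
    have h1 : S * (X ^ k + g v) = S * (X ^ k + g w) := add_right_cancel h
    exact add_left_cancel (mul_left_cancel₀ hS.ne_zero h1)
  have hcard : (Set.range f).ncard = Fintype.card K ^ k := by
    rw [← Set.image_univ, Set.ncard_image_of_injective _ hinj, Set.ncard_univ,
      Nat.card_eq_fintype_card]
    simp
  rw [← hcard]
  apply Set.ncard_le_ncard
  · rintro _ ⟨v, rfl⟩
    exact ⟨hfm v, hfd v, hfS v⟩
  · exact (finite_natDegree_le m).subset fun h hh => le_of_eq hh.2.1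

end Pool.Agent.W269.BL.CNT
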