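import Pool.Agent.W269.BL.Stm

set_option autoImplicit false

open Polynomial

namespace Pool.Agent.W269.BL.ED1

universe u

theorem rs_eq_norm {K : Type u} [Field K] [Finite K] (P z : K[X]) (hP : P.Monic)
    (hI : Irreducible P) :
    rs P z = Algebra.norm K (AdjoinRoot.mk P z) := by
  classical
  haveI : Fact (Irreducible P) := ⟨hI⟩
  haveI : FiniteDimensional K (AdjoinRoot P) := (AdjoinRoot.powerBasis hP.ne_zero).finite
  set Ω := AlgebraicClosure K
  apply (algebraMap K Ω).injective
  rw [Algebra.norm_eq_prod_embeddings K Ω]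
  set pb := AdjoinRoot.powerBasis hP.ne_zero with hpb
  have hgen : pb.gen = AdjoinRoot.root P := AdjoinRoot.powerBasis_gen hP.ne_zero
  have hmin : minpoly K pb.gen = P := AdjoinRoot.minpoly_powerBasis_gen_of_monic hP
  have hsepP : P.Separable := PerfectField.separable_of_irreducible hI
  have h1 : algebraMap K Ω (rs P z) =
      ((P.map (algebraMap K Ω)).roots.map (z.map (algebraMap K Ω)).eval).prod := by
    rw [rs, ← resultant_map_map]
    have := resultant_eq_prod_eval (P.map (algebraMap K Ω)) (z.map (algebraMap K Ω)) z.natDegree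
      natDegree_map_le (IsAlgClosed.splits _)
    rw [natDegree_map] at this
    rw [this, (hP.map _).leadingCoeff, one_pow, one_mul]
  rw [h1]
  have h2 : (∏ σ : AdjoinRoot P →ₐ[K] Ω, σ (AdjoinRoot.mk P z)) =
      ∏ x : {y : Ω // y ∈ (minpoly K pb.gen).aroots Ω}, (z.map (algebraMap K Ω)).eval x.1 := by
    refine Fintype.prod_equiv pb.liftEquiv' _ _ ?_
    intro σ
    rw [PowerBasis.liftEquiv'_apply_coe, hgen, eval_map_algebraMap, ← AdjoinRoot.aeval_eq,
      aeval_algHom_apply]
  rw [h2, hmin]
  rw [Finset.prod_mem_multiset (P.aroots Ω) (fun x => (z.map (algebraMap K Ω)).eval x.1)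
    (fun x => (z.map (algebraMap K Ω)).eval x) (fun x => rfl)]
  rw [Finset.prod_eq_multiset_prod, Multiset.toFinset_val, Multiset.dedup_eq_self.mpr]
  exact nodup_roots (hsepP.map)

theorem main : StmED1.{u} := by
  intro K _ _ _ h2 P hP hI τ hτ
  haveI : Fact (Irreducible P) := ⟨hI⟩
  haveI : FiniteDimensional K (AdjoinRoot P) := (AdjoinRoot.powerBasis hP.ne_zero).finite
  haveI : Finite (AdjoinRoot P) := Module.finite_of_finite K
  have hex : ∃ a : K, quadraticChar K a = τ := by
    rcases hτ with rfl | rfl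
    · exact ⟨1, by simp⟩
    · have hc : ringChar K ≠ 2 := by
        intro h
        apply h2
        have := CharP.cast_eq_zero K (ringChar K)
        rw [h] at this
        exact_mod_cast this
      exact quadraticChar_exists_neg_one hc
  obtain ⟨a, ha⟩ := hex
  obtain ⟨x, hx⟩ := FiniteField.norm_surjective K (AdjoinRoot P) a
  obtain ⟨z, rfl⟩ := AdjoinRoot.mk_surjective x
  exact ⟨z, by rw [rs_eq_norm P z hP hI, hx, ha]⟩

end Pool.Agent.W269.BL.ED1
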