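import Pool.Agent.W269.BL.Stm

set_option autoImplicit false

open Polynomial

namespace Pool.Agent.W269.BL.EF

universe u

lemma crt {K : Type u} [Field K] {ι : Type u} (s : Finset ι) (m r : ι → K[X])
    (hm : ∀ i ∈ s, ∀ j ∈ s, i ≠ j → IsCoprime (m i) (m j)) :
    ∃ y : K[X], ∀ j ∈ s, m j ∣ y - r j := by
  classical
  induction s using Finset.induction_on with
  | empty => exact ⟨0, by simp⟩
  | insert a s ha ih =>
    obtain ⟨y, hy⟩ := ih (fun i hi j hj => hm i (Finset.mem_insert_of_mem hi) j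
      (Finset.mem_insert_of_mem hj))
    have hc : IsCoprime (m a) (∏ i ∈ s, m i) := by
      apply IsCoprime.prod_right
      intro i hi
      exact hm a (Finset.mem_insert_self _ _) i (Finset.mem_insert_of_mem hi)
        (fun h => ha (h ▸ hi))
    obtain ⟨u, v, huv⟩ := hc
    refine ⟨y + (r a - y) * (v * ∏ i ∈ s, m i), fun j hj => ?_⟩
    rcases Finset.mem_insert.1 hj with rfl | hj
    · refine ⟨- (r j - y) * u, ?_⟩
      linear_combination (r j - y) * huv
    · have h1 : m j ∣ ∏ i ∈ s, m i := Finset.dvd_prod_of_mem _ hj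
      have h2 : y + (r a - y) * (v * ∏ i ∈ s, m i) - r j =
        (y - r j) + (r a - y) * v * ∏ i ∈ s, m i := by ring
      rw [h2]
      exact dvd_add (hy j hj) (h1.mul_left _)

theorem main : StmEF.{u} := by
  classical
  intro K _ _ p _ _ U z hU
  -- monic irreducible divisors
  set s : Finset K[X] := (UniqueFactorizationMonoid.normalizedFactors U).toFinset with hs
  have hsI : ∀ P ∈ s, Irreducible P := fun P hP =>
    UniqueFactorizationMonoid.irreducible_of_normalized_factor P (Multiset.mem_toFinset.1 hP)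
  have hsM : ∀ P ∈ s, P.Monic := by
    intro P hP
    have h1 := UniqueFactorizationMonoid.normalize_normalized_factor P (Multiset.mem_toFinset.1 hP)
    rw [← h1]
    exact monic_normalize (hsI P hP).ne_zero
  have hroot : ∀ P ∈ s, ∃ h : K[X], P ∣ h ^ p - z := by
    intro P hP
    haveI : Fact (Irreducible P) := ⟨hsI P hP⟩
    haveI : FiniteDimensional K (AdjoinRoot P) := (AdjoinRoot.powerBasis (hsI P hP).ne_zero).finite
    haveI : Finite (AdjoinRoot P) := Module.finite_of_finite K
    haveI : CharP (AdjoinRoot P) p := charP_of_injective_algebraMap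
      (algebraMap K (AdjoinRoot P)).injective p
    obtain ⟨x, hx⟩ := (frobeniusEquiv (AdjoinRoot P) p).surjective (AdjoinRoot.mk P z)
    obtain ⟨h, rfl⟩ := AdjoinRoot.mk_surjective x
    refine ⟨h, ?_⟩
    rw [← AdjoinRoot.mk_eq_mk, map_pow]
    exact hx
  choose! g hg using hroot
  obtain ⟨h₀, hh₀⟩ := crt s id g (by
    intro P hP Q hQ hne
    simp only [id]
    rw [(hsI P hP).coprime_iff_not_dvd]
    intro h
    exact hne (eq_of_monic_of_associated (hsM P hP) (hsM Q hQ)
      ((hsI P hP).associated_of_dvd (hsI Q hQ) h)))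
  refine ⟨∏ P ∈ s, P, h₀, monic_prod_of_monic _ _ hsM, ?_⟩
  intro h hh P hP hPU
  obtain ⟨Q, hQ, hPQ⟩ := UniqueFactorizationMonoid.exists_mem_normalizedFactors_of_dvd hU hP hPU
  have hQs : Q ∈ s := Multiset.mem_toFinset.2 hQ
  have h1 : Q ∣ h - h₀ := (Finset.dvd_prod_of_mem (fun P => P) hQs).trans hh
  have h2 : Q ∣ h - g Q := by
    have := dvd_add h1 (hh₀ Q hQs)
    simpa using this
  have h3 : Q ∣ h ^ p - z := by
    have h4 : h - g Q ∣ h ^ p - (g Q) ^ p := sub_dvd_pow_sub_pow _ _ _
    have := dvd_add (h2.trans h4) (hg Q hQs)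
    simpa using this
  exact hPQ.dvd.trans h3

end Pool.Agent.W269.BL.EF
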