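import Pool.Agent.W269.BL.Stm

set_option autoImplicit false

open Polynomial

namespace Pool.Agent.W269.BL.EV

universe u

theorem main : StmEV.{u} := by
  intro K _ _ R hR D₀
  have hsep : R.Separable := (PerfectField.separable_iff_squarefree).2 hR
  obtain ⟨u, v, huv⟩ : IsCoprime R (derivative R) := hsep
  refine ⟨R * (v * D₀), ?_⟩
  rw [derivative_mul]
  refine ⟨derivative (v * D₀) - u * D₀, ?_⟩
  linear_combination D₀ * huv

end Pool.Agent.W269.BL.EV
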