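import Pool.Agent.W269.BL.Stm

set_option autoImplicit false

open Polynomial

namespace Pool.Agent.W269.BL.EY

universe u

lemma exists_prime {K : Type u} [Field K] (V : K[X]) (hV : V ≠ 0) :
    ∃ P : K[X], P.Monic ∧ Irreducible P ∧ ¬ P ∣ V := by
  have h1 : (V * X + 1).natDegree = V.natDegree + 1 := by
    have : (V * X).natDegree = V.natDegree + 1 := natDegree_mul_X hV
    rw [← this]
    exact natDegree_add_C (a := (1 : K))
  have h2 : ¬ IsUnit (V * X + 1) := by
    intro h
    have := natDegree_eq_zero_of_isUnit h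
    omega
  obtain ⟨P, hPm, hPi, hPd⟩ := exists_monic_irreducible_factor (V * X + 1) h2
  refine ⟨P, hPm, hPi, fun h => ?_⟩
  have : P ∣ 1 := by
    have h3 : P ∣ V * X := h.mul_right X
    exact (dvd_add_right h3).1 hPd
  exact hPi.not_isUnit (isUnit_of_dvd_one this)

lemma exists_primes {K : Type u} [Field K] (n : ℕ) : ∀ (V : K[X]), V ≠ 0 →
    ∃ P : Fin n → K[X], (∀ j, (P j).Monic ∧ Irreducible (P j) ∧ ¬ P j ∣ V) ∧
      ∀ i j, i ≠ j → P i ≠ P j := by
  induction n with
  | zero => exact fun V _ => ⟨fun i => i.elim0, fun j => j.elim0, fun i => i.elim0⟩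
  | succ n ih =>
    intro V hV
    obtain ⟨P0, h1, h2, h3⟩ := exists_prime V hV
    obtain ⟨P, hP, hne⟩ := ih (V * P0) (mul_ne_zero hV h1.ne_zero)
    refine ⟨Fin.cons P0 P, ?_, ?_⟩
    · intro j
      refine Fin.cases ?_ (fun j => ?_) j
      · simpa using ⟨h1, h2, h3⟩
      · simp only [Fin.cons_succ]
        exact ⟨(hP j).1, (hP j).2.1, fun h => (hP j).2.2 (h.mul_right _)⟩
    · intro i j
      refine Fin.cases ?_ (fun i => ?_) i <;> refine Fin.cases ?_ (fun j => ?_) j
      · intro h; exact absurd rfl h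
      · intro _ h
        simp only [Fin.cons_zero, Fin.cons_succ] at h
        exact (hP j).2.2 (h ▸ dvd_mul_left _ _)
      · intro _ h
        simp only [Fin.cons_zero, Fin.cons_succ] at h
        exact (hP i).2.2 (h ▸ dvd_mul_left _ _)
      · intro hij h
        simp only [Fin.cons_succ] at h
        exact hne i j (fun h' => hij (by rw [h'])) h

lemma crt {K : Type u} [Field K] {n : ℕ} (m r : Fin n → K[X])
    (hm : ∀ i j, i ≠ j → IsCoprime (m i) (m j)) : ∃ y : K[X], ∀ j, m j ∣ y - r j := by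
  classical
  have h1 : ∀ j, IsCoprime (m j) (∏ i ∈ Finset.univ.erase j, m i) := by
    intro j
    apply IsCoprime.prod_right
    intro i hi
    exact hm j i (Finset.ne_of_mem_erase hi).symm
  choose s t hst using h1
  refine ⟨∑ j, r j * (t j * ∏ i ∈ Finset.univ.erase j, m i), fun j => ?_⟩
  rw [← Finset.add_sum_erase _ _ (Finset.mem_univ j)]
  have h2 : m j ∣ ∑ x ∈ Finset.univ.erase j, r x * (t x * ∏ i ∈ Finset.univ.erase x, m i) := by
    apply Finset.dvd_sum
    intro x hx
    apply Dvd.dvd.mul_left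
    apply Dvd.dvd.mul_left
    exact Finset.dvd_prod_of_mem _ (Finset.mem_erase.2 ⟨(Finset.ne_of_mem_erase hx).symm,
      Finset.mem_univ _⟩)
  have h3 : r j * (t j * ∏ i ∈ Finset.univ.erase j, m i) - r j = m j * (- (r j * s j)) := by
    linear_combination r j * hst j
  have h4 : r j * (t j * ∏ i ∈ Finset.univ.erase j, m i) +
      ∑ x ∈ Finset.univ.erase j, r x * (t x * ∏ i ∈ Finset.univ.erase x, m i) - r j =
      m j * (- (r j * s j)) +
      ∑ x ∈ Finset.univ.erase j, r x * (t x * ∏ i ∈ Finset.univ.erase x, m i) := by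
    rw [← h3]; ring
  rw [h4]
  exact dvd_add (dvd_mul_right _ _) h2

theorem main : StmEY.{u} := by
  classical
  intro K _ _ n A b hA hb hne c
  set V : K[X] := (∏ i, A i) *
    ∏ i, ∏ j, if i = j then 1 else (C (b j) * A i - C (b i) * A j) with hV
  have hV0 : V ≠ 0 := by
    apply mul_ne_zero
    · exact Finset.prod_ne_zero_iff.2 fun i _ => (hA i).ne_zero
    · refine Finset.prod_ne_zero_iff.2 fun i _ => Finset.prod_ne_zero_iff.2 fun j _ => ?_
      by_cases h : i = j
      · simp [h]
      · rw [if_neg h]; exact sub_ne_zero.2 (hne i j h)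
  obtain ⟨P, hP, hPne⟩ := exists_primes n V hV0
  have hPA : ∀ j i, ¬ P j ∣ A i := fun j i h =>
    (hP j).2.2 ((h.trans (Finset.dvd_prod_of_mem A (Finset.mem_univ i))).mul_right _)
  have hPW : ∀ k i j, i ≠ j → ¬ P k ∣ C (b j) * A i - C (b i) * A j := by
    intro k i j hij h
    apply (hP k).2.2
    rw [hV]
    apply Dvd.dvd.mul_left
    refine (?_ : P k ∣ ∏ j, if i = j then 1 else (C (b j) * A i - C (b i) * A j)).trans
      (Finset.dvd_prod_of_mem _ (Finset.mem_univ i))
    refine Dvd.dvd.trans ?_ (Finset.dvd_prod_of_mem _ (Finset.mem_univ j))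
    rw [if_neg hij]; exact h
  -- residues
  have hr : ∀ j, ∃ r : K[X], (P j) ^ 2 ∣ A j * r + C (b j) - P j := by
    intro j
    have hc : IsCoprime (A j) ((P j) ^ 2) := by
      apply IsCoprime.pow_right
      exact ((hP j).2.1.coprime_iff_not_dvd.2 (hPA j j)).symm
    obtain ⟨u, v, huv⟩ := hc
    refine ⟨u * (P j - C (b j)), - v * (P j - C (b j)), ?_⟩
    linear_combination (P j - C (b j)) * huv
  choose r hr using hr
  obtain ⟨y0, hy0⟩ := crt (fun j => (P j) ^ 2) r (by
    intro i j hij
    apply IsCoprime.pow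
    rw [(hP i).2.1.coprime_iff_not_dvd]
    intro h
    apply hPne i j hij
    exact eq_of_monic_of_associated (hP i).1 (hP j).1
      ((hP i).2.1.associated_of_dvd (hP j).2.1 h))
  set W2 : K[X] := ∏ j, (P j) ^ 2 with hW2
  have hW2m : W2.Monic := monic_prod_of_monic _ _ fun j _ => (hP j).1.pow 2
  have hW2d : W2.natDegree = 2 * ∑ j, (P j).natDegree := by
    rw [hW2, natDegree_prod_of_monic _ _ (fun j _ => (hP j).1.pow 2), Finset.mul_sum]
    exact Finset.sum_congr rfl fun j _ => (hP j).1.natDegree_pow 2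
  set k := 2 * (y0.natDegree + 1) + c % 2 with hk
  have hXm : (W2 * X ^ k).Monic := hW2m.mul (monic_X_pow k)
  have hXd : (W2 * X ^ k).natDegree = W2.natDegree + k := by
    rw [hW2m.natDegree_mul (monic_X_pow k), natDegree_X_pow]
  set y := W2 * X ^ k + y0 with hy
  have hlt : y0.natDegree < (W2 * X ^ k).natDegree := by omega
  have hym : y.Monic := by
    apply hXm.add_of_left
    rw [degree_eq_natDegree hXm.ne_zero]
    exact lt_of_le_of_lt degree_le_natDegree (by exact_mod_cast hlt)
  have hyd : y.natDegree = W2.natDegree + k := by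
    rw [hy, natDegree_add_eq_left_of_natDegree_lt hlt, hXd]
  have hyP : ∀ j, (P j) ^ 2 ∣ A j * y + C (b j) - P j := by
    intro j
    have h1 : (P j) ^ 2 ∣ W2 := Finset.dvd_prod_of_mem (fun j => (P j) ^ 2) (Finset.mem_univ j)
    have h2 : A j * y + C (b j) - P j = A j * (W2 * X ^ k) + A j * (y0 - r j) +
        (A j * r j + C (b j) - P j) := by rw [hy]; ring
    rw [h2]
    exact dvd_add (dvd_add ((h1.mul_right _).mul_left _) ((hy0 j).mul_left _)) (hr j)
  refine ⟨y, hym, by omega, by omega, P, fun j => ⟨(hP j).1, (hP j).2.1, ?_, ?_, ?_⟩⟩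
  · have h1 : P j ∣ A j * y + C (b j) - P j := (dvd_pow_self _ two_ne_zero).trans (hyP j)
    have := dvd_add h1 (dvd_refl (P j))
    simpa using this
  · intro h
    have h1 : (P j) ^ 2 ∣ P j := by
      have := dvd_sub h (hyP j)
      simpa using this
    have h2 : (P j) ^ 2 ∣ P j * 1 := by simpa using h1
    rw [sq] at h2
    have h3 := (mul_dvd_mul_iff_left (hP j).1.ne_zero).1 h2
    exact (hP j).2.1.not_isUnit (isUnit_of_dvd_one h3)
  · intro i hij h
    have h0 : P j ∣ A j * y + C (b j) := by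
      have h1 : P j ∣ A j * y + C (b j) - P j := (dvd_pow_self _ two_ne_zero).trans (hyP j)
      have := dvd_add h1 (dvd_refl (P j))
      simpa using this
    apply hPW j i j hij
    have h5 : C (b j) * A i - C (b i) * A j =
        A i * (A j * y + C (b j)) - A j * (A i * y + C (b i)) := by ring
    rw [h5]
    exact dvd_sub (h0.mul_left _) (h.mul_left _)

end Pool.Agent.W269.BL.EY
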