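import Pool.Agent.W269.BL.ED1

set_option autoImplicit false

open Polynomial

namespace Pool.Agent.W269.BL.PEL1

universe u

lemma vandermonde_perm {R : Type u} [CommRing R] {n : ℕ} (v : Fin n → R)
    (σ : Equiv.Perm (Fin n)) :
    (Matrix.vandermonde (fun i => v (σ i))).det =
      ((Equiv.Perm.sign σ : ℤˣ) : ℤ) * (Matrix.vandermonde v).det := by
  have h : Matrix.vandermonde (fun i => v (σ i)) = (Matrix.vandermonde v).submatrix σ id := by
    ext i j; simp [Matrix.vandermonde]
  rw [h, Matrix.det_permute]

lemma rot {L : Type u} [Monoid L] (g : L) (q d : ℕ) (hcard : g ^ q ^ d = g) (i : Fin d) :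
    (g ^ q ^ (i : ℕ)) ^ q = g ^ q ^ ((finRotate d i : Fin d) : ℕ) := by
  rw [← pow_mul, ← pow_succ]
  obtain _ | d' := d
  · exact i.elim0
  by_cases hi : (i : ℕ) = d'
  · have : finRotate (d' + 1) i = 0 := by
      have : i = Fin.last d' := Fin.ext (by simpa using hi)
      rw [this, finRotate_last]
    rw [this, hi, hcard]
    simp
  · have h6 : ((finRotate (d' + 1) i : Fin (d' + 1)) : ℕ) = i + 1 := by
      apply coe_finRotate_of_ne_last
      intro h; apply hi; rw [h]; simp
    rw [h6]

theorem main : StmPEL1.{u} := by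
  classical
  intro K _ _ _ h2 P hP hI
  haveI : Fact (Irreducible P) := ⟨hI⟩
  have hc : ringChar K ≠ 2 := by
    intro h
    apply h2
    have := CharP.cast_eq_zero K (ringChar K)
    rw [h] at this
    exact_mod_cast this
  set pb := AdjoinRoot.powerBasis hP.ne_zero with hpb
  haveI : Module.Finite K (AdjoinRoot P) := pb.finite
  haveI : Finite (AdjoinRoot P) := Module.finite_of_finite K
  haveI : Fintype (AdjoinRoot P) := Fintype.ofFinite _
  have hgen : pb.gen = AdjoinRoot.root P := AdjoinRoot.powerBasis_gen hP.ne_zero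
  have hmin : minpoly K pb.gen = P := AdjoinRoot.minpoly_powerBasis_gen_of_monic hP
  have hdim : pb.dim = P.natDegree := rfl
  have hfin : Module.finrank K (AdjoinRoot P) = P.natDegree := by rw [pb.finrank, hdim]
  have hdisc : Algebra.discr K pb.basis =
      (-1) ^ (P.natDegree * (P.natDegree - 1) / 2) * rs P (derivative P) := by
    rw [Algebra.discr_powerBasis_eq_norm, hfin, hmin, hgen, ED1.rs_eq_norm P _ hP hI,
      AdjoinRoot.aeval_eq]
  rw [← hdisc]
  set x := Algebra.discr K pb.basis with hx
  set d := P.natDegree with hd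
  have hd0 : 0 < d := hI.natDegree_pos
  -- the Vandermonde determinant in `L`
  set q := Fintype.card K with hq
  let v : Fin d → AdjoinRoot P := fun i => pb.gen ^ q ^ (i : ℕ)
  set δ := (Matrix.vandermonde v).det with hδ
  have ι : AdjoinRoot P →ₐ[K] AlgebraicClosure K := IsAlgClosed.lift
  have hιinj : Function.Injective ι := ι.toRingHom.injective
  have hinj : Function.Injective
      (fun i : Fin d => ι.comp ((FiniteField.frobeniusAlgHom K (AdjoinRoot P)) ^ (i : ℕ))) := by
    intro i j hij
    have hb := (FiniteField.bijective_frobeniusAlgHom_pow K (AdjoinRoot P)).1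
    have h1 : (FiniteField.frobeniusAlgHom K (AdjoinRoot P)) ^ (i : ℕ) =
        (FiniteField.frobeniusAlgHom K (AdjoinRoot P)) ^ (j : ℕ) := by
      ext1
      apply hιinj
      exact DFunLike.congr_fun hij _
    have h3 := @hb ⟨i, by rw [hfin]; exact i.2⟩ ⟨j, by rw [hfin]; exact j.2⟩ h1
    have h4 := congrArg (fun z : Fin (Module.finrank K (AdjoinRoot P)) => (z : ℕ)) h3
    exact Fin.ext h4
  have hbij : Function.Bijective
      (fun i : Fin d => ι.comp ((FiniteField.frobeniusAlgHom K (AdjoinRoot P)) ^ (i : ℕ))) := by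
    rw [Fintype.bijective_iff_injective_and_card]
    refine ⟨hinj, ?_⟩
    rw [Fintype.card_fin, AlgHom.card, hfin]
  let e : Fin pb.dim ≃ (AdjoinRoot P →ₐ[K] AlgebraicClosure K) := Equiv.ofBijective _ hbij
  have hev : ∀ i : Fin d, e i pb.gen = ι (v i) := by
    intro i
    change ι (((FiniteField.frobeniusAlgHom K (AdjoinRoot P)) ^ (i : ℕ)) pb.gen) = _
    congr 1
    rw [AlgHom.coe_pow, FiniteField.coe_frobeniusAlgHom, pow_iterate]
  have hxδ : algebraMap K (AdjoinRoot P) x = δ ^ 2 := by
    apply hιinj
    rw [AlgHom.commutes, hx, Algebra.discr_powerBasis_eq_prod K (AlgebraicClosure K) pb e, hδ,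
      Matrix.det_vandermonde, map_pow, map_prod, ← Finset.prod_pow]
    refine Finset.prod_congr rfl fun i _ => ?_
    rw [map_prod, ← Finset.prod_pow]
    refine Finset.prod_congr rfl fun j _ => ?_
    rw [map_sub, hev i, hev j]
  have hx0 : x ≠ 0 := Algebra.discr_not_zero_of_basis K pb.basis
  have hδ0 : δ ≠ 0 := by
    intro h
    rw [h, zero_pow two_ne_zero] at hxδ
    exact hx0 ((map_eq_zero _).1 hxδ)
  -- Frobenius permutes the roots cyclically
  have hδq : δ ^ q = (-1) ^ (d - 1) * δ := by
    have h1 : (FiniteField.frobeniusAlgHom K (AdjoinRoot P)) δ = δ ^ q := by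
      rw [FiniteField.coe_frobeniusAlgHom]
    rw [← h1, hδ]
    have h3 : (FiniteField.frobeniusAlgHom K (AdjoinRoot P)) (Matrix.vandermonde v).det =
        (Matrix.vandermonde (fun i => v (finRotate d i))).det := by
      rw [AlgHom.map_det]
      congr 1
      ext i j
      simp only [AlgHom.mapMatrix_apply, Matrix.map_apply, Matrix.vandermonde_apply, map_pow]
      congr 1
      rw [FiniteField.coe_frobeniusAlgHom]
      change (pb.gen ^ q ^ (i : ℕ)) ^ q = pb.gen ^ q ^ ((finRotate d i : Fin d) : ℕ)
      have hcard : pb.gen ^ q ^ d = pb.gen := by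
        have h5 : q ^ d = Fintype.card (AdjoinRoot P) := by
          rw [← hfin]; exact (Module.card_eq_pow_finrank (K := K) (V := AdjoinRoot P)).symm
        rw [h5, FiniteField.pow_card]
      exact rot pb.gen q d hcard i
    rw [h3, vandermonde_perm, sign_finRotate]
    push_cast
    rfl
  have hodd : q % 2 = 1 := FiniteField.odd_card_of_char_ne_two hc
  have hpow : δ ^ (q - 1) = (-1) ^ (d - 1) := by
    have hq1 : 1 ≤ q := Fintype.card_pos
    apply mul_right_cancel₀ hδ0
    rw [← hδq, ← pow_succ]
    congr 1; omega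
  have key : algebraMap K (AdjoinRoot P) ((quadraticChar K x : ℤ) : K) = (-1) ^ (d - 1) := by
    rw [quadraticChar_eq_pow_of_char_ne_two' hc, map_pow, hxδ, ← pow_mul, ← hpow]
    congr 1; omega
  have key2 : ((quadraticChar K x : ℤ) : K) = (((-1) ^ (d + 1) : ℤ) : K) := by
    apply (algebraMap K (AdjoinRoot P)).injective
    rw [key]
    have : (-1 : AdjoinRoot P) ^ (d - 1) = (-1) ^ (d + 1) := by
      have h7 : d + 1 = (d - 1) + 2 := by omega
      rw [h7, pow_add]; simp
    rw [this]; simp
  rcases quadraticChar_dichotomy hx0 with h | h <;>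
    rcases neg_one_pow_eq_or ℤ (d + 1) with h' | h'
  · rw [h, h']
  · exfalso
    apply h2
    rw [h, h'] at key2
    have : (1 : K) = -1 := by simpa using key2
    linear_combination this
  · exfalso
    apply h2
    rw [h, h'] at key2
    have : (-1 : K) = 1 := by simpa using key2
    linear_combination - this
  · rw [h, h']

end Pool.Agent.W269.BL.PEL1
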