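import Pool.Agent.W269.BL.Stm

set_option autoImplicit false

/-!
# Reduction of arbitrary pairwise non-proportional linear forms (part BL-RED)
-/

open Polynomial

namespace Pool.Agent.W269.BL.RED

open Pool.Agent.W269.BL

universe u

lemma lam_mul {K : Type u} [Field K] {F G : K[X]} (hF : F ≠ 0) (hG : G ≠ 0) :
    lam (F * G) = lam F * lam G := by
  unfold lam
  rw [← pow_add, ← Multiset.card_add,
    Multiset.card_eq_card_of_rel (UniqueFactorizationMonoid.factors_mul hF hG)]

lemma lam_C {K : Type u} [Field K] {a : K} (ha : a ≠ 0) : lam (C a) = 1 := by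
  unfold lam
  rw [UniqueFactorizationMonoid.factors_of_isUnit (isUnit_C.mpr (isUnit_iff_ne_zero.mpr ha))]
  simp

lemma lam_pm {K : Type u} [Field K] (F : K[X]) : lam F = 1 ∨ lam F = -1 :=
  neg_one_pow_eq_or ℤ _

/-- a nonzero polynomial divisible by all irreducible polynomials of small degree -/
lemma exists_Q (K : Type u) [Field K] [Fintype K] (n : ℕ) :
    ∃ Q : K[X], Q ≠ 0 ∧ ∀ P : K[X], Irreducible P → Fintype.card K ^ P.natDegree ≤ n → P ∣ Q := by
  classical
  have hfin : Finite (degreeLT K (n + 1)) :=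
    Finite.of_equiv _ (degreeLTEquiv K (n + 1)).symm.toEquiv
  have hset : ({P : K[X] | P ∈ degreeLT K (n + 1) ∧ P ≠ 0}).Finite :=
    (Set.toFinite (degreeLT K (n + 1) : Set K[X])).subset (fun P hP => hP.1)
  refine ⟨∏ P ∈ hset.toFinset, P, ?_, ?_⟩
  · rw [Finset.prod_ne_zero_iff]
    intro P hP
    exact ((Set.Finite.mem_toFinset hset).mp hP).2
  · intro P hP hPn
    apply Finset.dvd_prod_of_mem (fun P => P)
    rw [Set.Finite.mem_toFinset]
    refine ⟨?_, hP.ne_zero⟩
    rw [mem_degreeLT]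
    have h1 : P.natDegree < Fintype.card K ^ P.natDegree :=
      Nat.lt_pow_self Fintype.one_lt_card
    have h2 : P.natDegree < n + 1 := by omega
    exact (natDegree_lt_iff_degree_lt hP.ne_zero).mp h2

lemma exists_F {K : Type u} [Field K] (n : ℕ) (A B : Fin n → K[X]) (hA : ∀ j, A j ≠ 0) :
    ∃ F : K[X], ∀ j, A j * F + B j ≠ 0 := by
  classical
  have hfin : (⋃ j : Fin n, {F : K[X] | A j * F + B j = 0}).Finite := by
    apply Set.finite_iUnion
    intro j
    apply Set.Subsingleton.finite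
    intro F hF G hG
    have h1 : A j * F = A j * G := by
      have hF' : A j * F + B j = 0 := hF
      have hG' : A j * G + B j = 0 := hG
      linear_combination hF' - hG'
    exact mul_left_cancel₀ (hA j) h1
  obtain ⟨F, hF⟩ := hfin.exists_notMem
  refine ⟨F, fun j hj => hF ?_⟩
  exact Set.mem_iUnion.mpr ⟨j, hj⟩

theorem main : StmRED.{u} := by
  intro K _ _ n A B hA hAB
  classical
  obtain ⟨Qpol, hQ0, hQ⟩ := exists_Q K n
  obtain ⟨F₁, hF₁⟩ := exists_F n A B hA
  set c : Fin n → K[X] := fun j => A j * F₁ + B j with hc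
  have hc0 : ∀ j, c j ≠ 0 := hF₁
  set W : K[X] := Qpol * ∏ j, (c j) ^ 2 with hW
  have hW0 : W ≠ 0 := by
    refine mul_ne_zero hQ0 ?_
    rw [Finset.prod_ne_zero_iff]
    intro j _
    exact pow_ne_zero 2 (hc0 j)
  have hw : W.leadingCoeff ≠ 0 := leadingCoeff_ne_zero.mpr hW0
  set w : K := W.leadingCoeff⁻¹ with hwdef
  have hw' : w ≠ 0 := inv_ne_zero hw
  refine ⟨F₁, W * C w, monic_mul_leadingCoeff_inv hW0, ?_⟩
  intro s
  set E : Fin n → K[X] := fun j => c j * ∏ i ∈ Finset.univ.erase j, (c i) ^ 2 with hE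
  have hE0 : ∀ j, E j ≠ 0 := by
    intro j
    refine mul_ne_zero (hc0 j) ?_
    rw [Finset.prod_ne_zero_iff]
    intro i _
    exact pow_ne_zero 2 (hc0 i)
  have hcE : ∀ j, ∏ i, (c i) ^ 2 = c j * E j := by
    intro j
    rw [hE, ← Finset.mul_prod_erase Finset.univ (fun i => (c i) ^ 2) (Finset.mem_univ j)]
    ring
  set D : Fin n → K[X] := fun j => Qpol * (A j * X ^ s * E j * C w) with hD
  have hD0 : ∀ j, D j ≠ 0 := by
    intro j
    refine mul_ne_zero hQ0 (mul_ne_zero (mul_ne_zero (mul_ne_zero (hA j) ?_) (hE0 j)) ?_)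
    · exact pow_ne_zero s X_ne_zero
    · exact C_ne_zero.mpr hw'
  have hcD : ∀ j, A j * (X ^ s * (W * C w)) = c j * D j := by
    intro j
    rw [hW, hcE j, hD]
    ring
  set α : Fin n → K := fun j => (D j).leadingCoeff with hα
  have hα0 : ∀ j, α j ≠ 0 := fun j => leadingCoeff_ne_zero.mpr (hD0 j)
  have hCα : ∀ j, (C (α j) : K[X]) * C (α j)⁻¹ = 1 := by
    intro j
    rw [← C_mul, mul_inv_cancel₀ (hα0 j), C_1]
  have key : ∀ (G : K[X]) (j : Fin n), A j * (F₁ + X ^ s * (W * C w) * G) + B j =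
      (c j * C (α j)) * (D j * C (α j)⁻¹ * G + C (α j)⁻¹) := by
    intro G j
    have h1 := hcD j
    have h2 := hCα j
    have h3 : c j = A j * F₁ + B j := rfl
    linear_combination G * h1 - h3 - (c j * D j * G + c j) * h2
  refine ⟨fun j => D j * C (α j)⁻¹, fun j => (α j)⁻¹, fun j => lam (c j),
    fun j => monic_mul_leadingCoeff_inv (hD0 j), fun j => inv_ne_zero (hα0 j), ?_, ?_,
    fun j => lam_pm _, ?_⟩
  · intro i j hij h
    have h1 : D i = D j := by
      have hi := hCα i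
      have hj := hCα j
      have h' : C (α j)⁻¹ * (D i * C (α i)⁻¹) = C (α i)⁻¹ * (D j * C (α j)⁻¹) := h
      have h2 : C (α i) * C (α j) * (C (α j)⁻¹ * (D i * C (α i)⁻¹)) =
          C (α i) * C (α j) * (C (α i)⁻¹ * (D j * C (α j)⁻¹)) := by rw [h']
      have h3 : C (α i) * C (α j) * (C (α j)⁻¹ * (D i * C (α i)⁻¹)) = D i := by
        calc C (α i) * C (α j) * (C (α j)⁻¹ * (D i * C (α i)⁻¹))
            = (C (α i) * C (α i)⁻¹) * (C (α j) * C (α j)⁻¹) * D i := by ring
          _ = D i := by rw [hi, hj]; ring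
      have h4 : C (α i) * C (α j) * (C (α i)⁻¹ * (D j * C (α j)⁻¹)) = D j := by
        calc C (α i) * C (α j) * (C (α i)⁻¹ * (D j * C (α j)⁻¹))
            = (C (α i) * C (α i)⁻¹) * (C (α j) * C (α j)⁻¹) * D j := by ring
          _ = D j := by rw [hi, hj]; ring
      rw [← h3, h2, h4]
    have hi := hcD i
    have hj := hcD j
    have hT : X ^ s * (W * C w) ≠ 0 :=
      mul_ne_zero (pow_ne_zero s X_ne_zero) (mul_ne_zero hW0 (C_ne_zero.mpr hw'))
    have h5 : (X ^ s * (W * C w)) * (A i * c j) = (X ^ s * (W * C w)) * (A j * c i) := by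
      rw [h1] at hi
      linear_combination c j * hi - c i * hj
    have h6 : A i * c j = A j * c i := mul_left_cancel₀ hT h5
    apply hAB i j hij
    have h7 : c i = A i * F₁ + B i := rfl
    have h8 : c j = A j * F₁ + B j := rfl
    rw [h7, h8] at h6
    linear_combination h6
  · intro Q hQi hQn j
    have h1 : Q ∣ Qpol := hQ Q hQi hQn
    exact Dvd.dvd.mul_right (Dvd.dvd.mul_right h1 _) _
  · intro G j hne
    have hne' : D j * C (α j)⁻¹ * G + C (α j)⁻¹ ≠ 0 := hne
    have h1 : c j * C (α j) ≠ 0 := mul_ne_zero (hc0 j) (C_ne_zero.mpr (hα0 j))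
    rw [key G j]
    refine ⟨mul_ne_zero h1 hne', ?_⟩
    rw [lam_mul h1 hne', lam_mul (hc0 j) (C_ne_zero.mpr (hα0 j)), lam_C (hα0 j), mul_one]

end Pool.Agent.W269.BL.RED
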