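import Pool.Agent.W269.BL.Stm

set_option autoImplicit false

open Polynomial

namespace Pool.Agent.W269.BL.TR

universe u

lemma formula {K : Type u} [Field K] (L M : K[X]) :
    algebraMap K (AlgebraicClosure K) (rs L M) =
      (-1) ^ (L.natDegree * M.natDegree) *
        ((algebraMap K (AlgebraicClosure K) M.leadingCoeff) ^ L.natDegree *
        ((M.map (algebraMap K (AlgebraicClosure K))).roots.map
          (L.map (algebraMap K (AlgebraicClosure K))).eval).prod) := by
  rw [rs_comm, map_mul, map_pow, map_neg, map_one]
  congr 1
  rw [rs, ← resultant_map_map]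
  have := resultant_eq_prod_eval (M.map (algebraMap K (AlgebraicClosure K)))
    (L.map (algebraMap K (AlgebraicClosure K))) L.natDegree natDegree_map_le
    (IsAlgClosed.splits _)
  rw [natDegree_map, leadingCoeff_map] at this
  exact this

theorem main : StmTR.{u} := by
  intro K _ L l M hL hl hM hdiv
  apply (algebraMap K (AlgebraicClosure K)).injective
  rw [map_mul, map_mul, formula, formula]
  have hroots : ((M.map (algebraMap K (AlgebraicClosure K))).roots.map
      (L.map (algebraMap K (AlgebraicClosure K))).eval) =
      ((M.map (algebraMap K (AlgebraicClosure K))).roots.map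
      (l.map (algebraMap K (AlgebraicClosure K))).eval) := by
    apply Multiset.map_congr rfl
    intro η hη
    have hη' : aeval η M = 0 := by
      have := isRoot_of_mem_roots hη
      rw [IsRoot, eval_map_algebraMap] at this
      exact this
    have hint : IsIntegral K η := Algebra.IsIntegral.isIntegral η
    have h1 := hdiv (minpoly K η) (minpoly.irreducible hint) (minpoly.dvd K η hη')
    obtain ⟨w, hw⟩ := h1
    have h2 : aeval η (L - l) = 0 := by rw [hw, map_mul, minpoly.aeval, zero_mul]
    rw [eval_map_algebraMap, eval_map_algebraMap]
    rw [map_sub] at h2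
    exact sub_eq_zero.1 h2
  rw [hroots]
  simp only [map_pow, map_mul, map_neg, map_one]
  ring

end Pool.Agent.W269.BL.TR
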