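import Pool.Agent.W269.BL.SIGN
import Pool.Agent.W269.BL.EV
import Pool.Agent.W269.BL.EY
import Pool.Agent.W269.BL.EF
import Pool.Agent.W269.BL.TR
import Pool.Agent.W269.BL.CNT
import Pool.Agent.W269.BL.ED1
import Pool.Agent.W269.BL.PEL1
import Pool.Agent.W93.BL.PEL
import Pool.Agent.W30.BL.ED
import Pool.Agent.W800.BL.CORE
import Pool.Agent.W269.BL.RED
import Pool.Agent.W20.BL.MAIN
import Pool.Agent.W691.BL.ENUM

set_option autoImplicit false

/-!
# Project BL, assembly

Team project BL: helper269 (design, resultants, EY, ED1, EV, EF, TR, SIGN, CNT, PEL1, assembly),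
helper93 (PEL), helper30 (ED), helper800 (CORE), helper876 (RED, copied here with one name changed), helper20 (MAIN), helper691 (ENUM).
-/

namespace Pool.Agent.W269.BL.Assembly

universe u

theorem coreHolds : StmCORE.{u} :=
  Pool.Agent.W800.BL.CORE.main
    (Pool.Agent.W269.BL.SIGN.main (Pool.Agent.W93.BL.PEL.main Pool.Agent.W269.BL.PEL1.main)
      Pool.Agent.W269.BL.TR.main)
    Pool.Agent.W269.BL.EY.main (Pool.Agent.W30.BL.main Pool.Agent.W269.BL.ED1.main)
    Pool.Agent.W269.BL.EV.main Pool.Agent.W269.BL.EF.main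

theorem mainHolds : StmMAIN.{u} :=
  Pool.Agent.W20.BL.main coreHolds Pool.Agent.W269.BL.RED.main Pool.Agent.W269.BL.CNT.main

theorem enumHolds : StmENUM.{u} := Pool.Agent.W691.BL.ENUM.main mainHolds

end Pool.Agent.W269.BL.Assembly
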