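import Mathlib

set_option autoImplicit false

/-!
# Project BL: sign patterns of the Liouville function of `K[X]`, `K` a finite field of odd characteristic

Base file: the Liouville function, resultants with a monic first argument.
-/

open Polynomial

namespace Pool.Agent.W269.BL

universe u

/-- The Liouville function of `K[X]`: `(-1)` to the number of irreducible factors, counted with
multiplicity. -/
noncomputable def lam {K : Type u} [Field K] (F : K[X]) : ℤ :=
  (-1) ^ Multiset.card (UniqueFactorizationMonoid.factors F)

/-- The resultant (Mathlib's, with the natural degrees). -/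
noncomputable def rs {K : Type u} [Field K] (f g : K[X]) : K :=
  resultant f g f.natDegree g.natDegree

section rs
variable {K : Type u} [Field K]

lemma rs_eq_of_le {f g : K[X]} (hf : f.Monic) {n : ℕ} (hn : g.natDegree ≤ n) :
    resultant f g f.natDegree n = rs f g := by
  obtain ⟨k, rfl⟩ := le_iff_exists_add.mp hn
  rw [resultant_add_right_deg _ _ _ _ k le_rfl]
  simp [rs, hf.leadingCoeff]

lemma rs_add_mul {f : K[X]} (hf : f.Monic) (g k : K[X]) : rs f (g + f * k) = rs f g := by
  set n := max (g.natDegree) (k.natDegree + f.natDegree) with hn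
  have h1 : g.natDegree ≤ n := le_max_left _ _
  have h2 : k.natDegree + f.natDegree ≤ n := le_max_right _ _
  have h3 : (g + f * k).natDegree ≤ n := by
    refine (natDegree_add_le _ _).trans (max_le h1 ?_)
    exact (natDegree_mul_le).trans (by omega)
  rw [← rs_eq_of_le hf h1, ← rs_eq_of_le hf h3, resultant_add_mul_right _ _ _ _ _ h2 le_rfl]

lemma rs_mul_right {f : K[X]} (hf : f.Monic) (g h : K[X]) : rs f (g * h) = rs f g * rs f h := by
  rw [← rs_eq_of_le hf (natDegree_mul_le (p := g) (q := h)), resultant_mul_right _ _ _ _ le_rfl]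
  rfl

lemma rs_mul_left {f g : K[X]} (hf : f.Monic) (hg : g.Monic) (h : K[X]) :
    rs (f * g) h = rs f h * rs g h := by
  rw [rs, hf.natDegree_mul hg, resultant_mul_left _ _ _ _ le_rfl]
  rfl

lemma rs_comm (f g : K[X]) : rs f g = (-1) ^ (f.natDegree * g.natDegree) * rs g f := by
  rw [rs, rs, resultant_comm]

lemma rs_ne_zero_iff {f : K[X]} (hf : f.Monic) (g : K[X]) : rs f g ≠ 0 ↔ IsCoprime f g := by
  rw [← isUnit_iff_ne_zero]
  exact isUnit_resultant_iff_isCoprime hf

lemma rs_C {f : K[X]} (b : K) : rs f (C b) = b ^ f.natDegree := by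
  rw [rs, natDegree_C, resultant_C_zero_right]

end rs

end Pool.Agent.W269.BL
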