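import Pool.Agent.W269.BL.Stm

set_option autoImplicit false

open Polynomial

namespace Pool.Agent.W269.BL.SIGN

universe u

theorem main : StmPEL.{u} → StmTR.{u} → StmSIGN.{u} := by
  intro hPEL hTR K _ _ _ h2 A G y b hA hG hy hb hG0 hy0 hpar hM0 hcop hdiv
  set M := A ^ 2 * derivative G - C b * derivative A with hM
  set L := A * G + C b with hL
  set l := A * y + C b with hl
  have hAG : (A * G).Monic := hA.mul hG
  have hAy : (A * y).Monic := hA.mul hy
  have hdAG : (A * G).natDegree = A.natDegree + G.natDegree := hA.natDegree_mul hG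
  have hdAy : (A * y).natDegree = A.natDegree + y.natDegree := hA.natDegree_mul hy
  have hLm : L.Monic := by
    rw [hL]
    apply hAG.add_of_left
    rw [degree_eq_natDegree hAG.ne_zero]
    refine lt_of_le_of_lt degree_C_le ?_
    exact_mod_cast (by omega : 0 < (A * G).natDegree)
  have hlm : l.Monic := by
    rw [hl]
    apply hAy.add_of_left
    rw [degree_eq_natDegree hAy.ne_zero]
    refine lt_of_le_of_lt degree_C_le ?_
    exact_mod_cast (by omega : 0 < (A * y).natDegree)
  have hLd : L.natDegree = A.natDegree + G.natDegree := by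
    rw [hL, natDegree_add_C, hdAG]
  have hld : l.natDegree = A.natDegree + y.natDegree := by
    rw [hl, natDegree_add_C, hdAy]
  have hlM : rs l M ≠ 0 := (rs_ne_zero_iff hlm M).2 hcop
  have hβ : ((-1) ^ M.natDegree * M.leadingCoeff : K) ≠ 0 :=
    mul_ne_zero (pow_ne_zero _ (by simp)) (leadingCoeff_ne_zero.2 hM0)
  have htr := hTR K L l M hLm hlm hM0 (by
    intro P hP hPM
    have := hdiv P hP hPM
    have h1 : L - l = A * (G - y) := by rw [hL, hl]; ring
    rw [h1]
    exact this.mul_left A)
  set β : K := (-1) ^ M.natDegree * M.leadingCoeff with hβd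
  have hLM : rs L M ≠ 0 := by
    intro h0
    rw [h0, zero_mul] at htr
    exact (mul_ne_zero hlM (pow_ne_zero _ hβ)) htr.symm
  -- quadratic characters agree
  have hχ : quadraticChar K (rs L M) = quadraticChar K (rs l M) := by
    have hsq : IsSquare (β ^ l.natDegree * β ^ L.natDegree) := by
      rw [← pow_add]
      have : Even (l.natDegree + L.natDegree) := by
        rw [Nat.even_iff]; omega
      exact this.isSquare_pow β
    have e1 : quadraticChar K (rs L M) * quadraticChar K (β ^ l.natDegree) =
        quadraticChar K (rs l M) * quadraticChar K (β ^ L.natDegree) := by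
      rw [← map_mul, ← map_mul, htr]
    have e2 : quadraticChar K (β ^ l.natDegree) * quadraticChar K (β ^ L.natDegree) = 1 := by
      rw [← map_mul]
      exact (quadraticChar_one_iff_isSquare (mul_ne_zero (pow_ne_zero _ hβ)
        (pow_ne_zero _ hβ))).2 hsq
    have e3 : quadraticChar K (β ^ l.natDegree) * quadraticChar K (β ^ l.natDegree) = 1 := by
      rw [← sq]; exact quadraticChar_sq_one (pow_ne_zero _ hβ)
    have e4 : quadraticChar K (β ^ L.natDegree) * quadraticChar K (β ^ L.natDegree) = 1 := by
      rw [← sq]; exact quadraticChar_sq_one (pow_ne_zero _ hβ)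
    calc quadraticChar K (rs L M) = quadraticChar K (rs L M) *
          (quadraticChar K (β ^ l.natDegree) * quadraticChar K (β ^ l.natDegree)) := by
            rw [e3, mul_one]
      _ = (quadraticChar K (rs L M) * quadraticChar K (β ^ l.natDegree)) *
            quadraticChar K (β ^ l.natDegree) := by ring
      _ = quadraticChar K (rs l M) *
            (quadraticChar K (β ^ l.natDegree) * quadraticChar K (β ^ L.natDegree)) := by
            rw [e1]; ring
      _ = quadraticChar K (rs l M) := by rw [e2, mul_one]
  -- the resultant with the derivative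
  have hder : A * derivative L = M + L * derivative A := by
    rw [hL, hM]; simp only [derivative_add, derivative_mul, derivative_C, add_zero]; ring
  have hLA : rs L A = (-1) ^ (L.natDegree * A.natDegree) * b ^ A.natDegree := by
    rw [rs_comm, hL, add_comm (A * G) (C b), rs_add_mul hA, rs_C]
  have hLA0 : rs L A ≠ 0 := by
    rw [hLA]; exact mul_ne_zero (pow_ne_zero _ (by simp)) (pow_ne_zero _ hb)
  have hprod : rs L (derivative L) * rs L A = rs L M := by
    rw [mul_comm, ← rs_mul_right hLm, hder, rs_add_mul hLm]
  have hLL : rs L (derivative L) ≠ 0 := by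
    intro h0; rw [h0, zero_mul] at hprod; exact hLM hprod.symm
  have hsf : Squarefree L := by
    have : IsCoprime L (derivative L) := (rs_ne_zero_iff hLm _).1 hLL
    have hsep : L.Separable := this
    exact hsep.squarefree
  refine ⟨hsf, ?_⟩
  rw [hPEL K h2 L hLm hsf]
  have hq : quadraticChar K (rs L (derivative L)) =
      quadraticChar K (rs L A) * quadraticChar K (rs L M) := by
    rw [← hprod, map_mul]
    have : quadraticChar K (rs L A) * quadraticChar K (rs L A) = 1 := by
      rw [← sq]; exact quadraticChar_sq_one hLA0
    calc quadraticChar K (rs L (derivative L)) = quadraticChar K (rs L (derivative L)) *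
          (quadraticChar K (rs L A) * quadraticChar K (rs L A)) := by rw [this, mul_one]
      _ = _ := by ring
  rw [map_mul, hq, hLA, hχ, sg, hLd]
  have e5 : ((-1 : K) ^ ((A.natDegree + G.natDegree) * (A.natDegree + G.natDegree - 1) / 2 +
      (A.natDegree + G.natDegree) * A.natDegree)) =
      (-1 : K) ^ ((A.natDegree + G.natDegree) * (A.natDegree + G.natDegree - 1) / 2) *
      (-1 : K) ^ ((A.natDegree + G.natDegree) * A.natDegree) := pow_add _ _ _
  rw [e5]
  simp only [map_mul]
  ring

end Pool.Agent.W269.BL.SIGN
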