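import Pool.Agent.W269.BL.Base

set_option autoImplicit false

/-!
# Project BL: statements

Every `Stm...` is a self-contained statement; `StmX → ...` dependencies are written out.
`K` is always a finite field with `(2 : K) ≠ 0`.
-/

open Polynomial

namespace Pool.Agent.W269.BL

universe u

/-- PEL1: the discriminant of a monic irreducible polynomial of degree `d` is a square iff `d` is odd.
(Roots `θ, θ^q, ..., θ^(q^(d-1))`; with `δ = ∏_{i<j} (θ^(q^j) - θ^(q^i))` one has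
`δ^q = (-1)^(d-1) δ`, `δ^2 = (-1)^(d(d-1)/2) Res(P, P')`, and `χ(x) = x^((q-1)/2)`.) -/
def StmPEL1 : Prop :=
  ∀ (K : Type u) [Field K] [Fintype K] [DecidableEq K], (2 : K) ≠ 0 →
    ∀ P : K[X], P.Monic → Irreducible P →
      quadraticChar K ((-1) ^ (P.natDegree * (P.natDegree - 1) / 2) * rs P (derivative P)) =
        (-1) ^ (P.natDegree + 1)

/-- PEL (Pellet's formula) from PEL1, by multiplicativity. -/
def StmPEL : Prop :=
  ∀ (K : Type u) [Field K] [Fintype K] [DecidableEq K], (2 : K) ≠ 0 →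
    ∀ f : K[X], f.Monic → Squarefree f →
      lam f = (-1) ^ f.natDegree *
        quadraticChar K ((-1) ^ (f.natDegree * (f.natDegree - 1) / 2) * rs f (derivative f))

/-- TR: resultants of two monic polynomials with the same values at the roots of `M`. -/
def StmTR : Prop :=
  ∀ (K : Type u) [Field K] (L l M : K[X]), L.Monic → l.Monic → M ≠ 0 →
    (∀ P : K[X], Irreducible P → P ∣ M → P ∣ L - l) →
    rs L M * ((-1) ^ M.natDegree * M.leadingCoeff) ^ l.natDegree =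
      rs l M * ((-1) ^ M.natDegree * M.leadingCoeff) ^ L.natDegree

/-- The sign in StmSIGN. -/
noncomputable def sg (K : Type u) [Field K] [Fintype K] [DecidableEq K] (a g : ℕ) (b : K) : ℤ :=
  (-1) ^ (a + g) * quadraticChar K ((-1) ^ ((a + g) * (a + g - 1) / 2 + (a + g) * a) * b ^ a)

/-- SIGN: the Liouville function of `A G + b` through a resultant with
`M = A² G' - b A'` that only needs `G` modulo the primes dividing `M`.
(`A L' = A' L + M` for `L = A G + b`, so `Res(L, L') Res(L, A) = Res(L, M)`; `Res(L, A) = ± b^a`;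
then Pellet and TR.) -/
def StmSIGN : Prop :=
  ∀ (K : Type u) [Field K] [Fintype K] [DecidableEq K], (2 : K) ≠ 0 →
    ∀ (A G y : K[X]) (b : K), A.Monic → G.Monic → y.Monic → b ≠ 0 → 0 < G.natDegree →
      0 < y.natDegree → G.natDegree % 2 = y.natDegree % 2 →
      A ^ 2 * derivative G - C b * derivative A ≠ 0 →
      IsCoprime (A * y + C b) (A ^ 2 * derivative G - C b * derivative A) →
      (∀ P : K[X], Irreducible P → P ∣ A ^ 2 * derivative G - C b * derivative A → P ∣ G - y) →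
      Squarefree (A * G + C b) ∧
      lam (A * G + C b) = sg K A.natDegree G.natDegree b *
        quadraticChar K (rs (A * y + C b) (A ^ 2 * derivative G - C b * derivative A))

/-- EY: choice of `y` and of private primes `P j` of `A j y + b j`. -/
def StmEY : Prop :=
  ∀ (K : Type u) [Field K] [Finite K] (n : ℕ) (A : Fin n → K[X]) (b : Fin n → K),
    (∀ j, (A j).Monic) → (∀ j, b j ≠ 0) → (∀ i j, i ≠ j → C (b j) * A i ≠ C (b i) * A j) →
    ∀ c : ℕ, ∃ y : K[X], y.Monic ∧ 0 < y.natDegree ∧ y.natDegree % 2 = c % 2 ∧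
      ∃ P : Fin n → K[X], ∀ j, (P j).Monic ∧ Irreducible (P j) ∧ P j ∣ A j * y + C (b j) ∧
        ¬ (P j) ^ 2 ∣ A j * y + C (b j) ∧ ∀ i, i ≠ j → ¬ P j ∣ A i * y + C (b i)

/-- ED1: both signs occur modulo an irreducible polynomial. -/
def StmED1 : Prop :=
  ∀ (K : Type u) [Field K] [Fintype K] [DecidableEq K], (2 : K) ≠ 0 →
    ∀ P : K[X], P.Monic → Irreducible P → ∀ τ : ℤ, τ = 1 ∨ τ = -1 →
      ∃ z : K[X], quadraticChar K (rs P z) = τ

/-- ED: choice of `D` modulo a squarefree polynomial `R` with prescribed signs. -/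
def StmED : Prop :=
  ∀ (K : Type u) [Field K] [Fintype K] [DecidableEq K], (2 : K) ≠ 0 →
    ∀ (n : ℕ) (A : Fin n → K[X]) (b : Fin n → K) (y : K[X]) (P : Fin n → K[X]) (τ : Fin n → ℤ),
    (∀ j, (A j).Monic) → (∀ j, b j ≠ 0) → y.Monic → 0 < y.natDegree →
    (∀ Q : K[X], Irreducible Q → Fintype.card K ^ Q.natDegree ≤ n → ∀ j, Q ∣ A j) →
    (∀ j, (P j).Monic ∧ Irreducible (P j) ∧ P j ∣ A j * y + C (b j) ∧
        ¬ (P j) ^ 2 ∣ A j * y + C (b j) ∧ ∀ i, i ≠ j → ¬ P j ∣ A i * y + C (b i)) →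
    (∀ j, τ j = 1 ∨ τ j = -1) →
    ∃ R : K[X], R.Monic ∧ Squarefree R ∧ ∃ D₀ : K[X], ∀ D : K[X], R ∣ D - D₀ →
      ∀ j, quadraticChar K
        (rs (A j * y + C (b j)) ((A j) ^ 2 * D - C (b j) * derivative (A j))) = τ j

/-- EV: every class modulo a squarefree polynomial contains a derivative
(take `G₀ = R V` with `R' V ≡ D₀` modulo `R`). -/
def StmEV : Prop :=
  ∀ (K : Type u) [Field K] [Finite K] (R : K[X]), Squarefree R → ∀ D₀ : K[X],
    ∃ G₀ : K[X], R ∣ derivative G₀ - D₀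

/-- EF: `p`-th powers modulo the primes dividing `U`. -/
def StmEF : Prop :=
  ∀ (K : Type u) [Field K] [Finite K] (p : ℕ) [Fact p.Prime] [CharP K p] (U z : K[X]), U ≠ 0 →
    ∃ S h₀ : K[X], S.Monic ∧ ∀ h : K[X], S ∣ h - h₀ →
      ∀ P : K[X], Irreducible P → P ∣ U → P ∣ h ^ p - z

/-- CORE: for each residue `c` modulo 4 there are `G₀`, `S`, `h₀` such that all
`G = G₀ + h^p`, `h` monic in the class of `h₀` modulo `S`, `deg G ≡ c` modulo 4, realise the
pattern. -/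
def StmCORE : Prop :=
  ∀ (K : Type u) [Field K] [Fintype K] (p : ℕ) [Fact p.Prime] [CharP K p], p ≠ 2 →
    ∀ (n : ℕ) (A : Fin n → K[X]) (b : Fin n → K) (ε : Fin n → ℤ),
    (∀ j, (A j).Monic) → (∀ j, b j ≠ 0) → (∀ i j, i ≠ j → C (b j) * A i ≠ C (b i) * A j) →
    (∀ Q : K[X], Irreducible Q → Fintype.card K ^ Q.natDegree ≤ n → ∀ j, Q ∣ A j) →
    (∀ j, ε j = 1 ∨ ε j = -1) →
    ∀ c : ℕ, ∃ G₀ S h₀ : K[X], S.Monic ∧ ∀ h : K[X], h.Monic → S ∣ h - h₀ →
      G₀.natDegree < p * h.natDegree → (p * h.natDegree) % 4 = c % 4 →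
      ∀ j, A j * (G₀ + h ^ p) + C (b j) ≠ 0 ∧ lam (A j * (G₀ + h ^ p) + C (b j)) = ε j

/-- RED: reduction of arbitrary pairwise non-proportional linear forms to the forms of CORE.
(`F₁` with all `c j = A j F₁ + B j ≠ 0`, `T` the monic associate of `Q ∏ (c j)²`, `Q` the product of
the monic irreducible polynomials with `q^deg ≤ n`.) -/
def StmRED : Prop :=
  ∀ (K : Type u) [Field K] [Fintype K] (n : ℕ) (A B : Fin n → K[X]),
    (∀ j, A j ≠ 0) → (∀ i j, i ≠ j → A i * B j ≠ A j * B i) →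
    ∃ F₁ T : K[X], T.Monic ∧ ∀ s : ℕ, ∃ (A' : Fin n → K[X]) (b : Fin n → K) (e : Fin n → ℤ),
      (∀ j, (A' j).Monic) ∧ (∀ j, b j ≠ 0) ∧
      (∀ i j, i ≠ j → C (b j) * A' i ≠ C (b i) * A' j) ∧
      (∀ Q : K[X], Irreducible Q → Fintype.card K ^ Q.natDegree ≤ n → ∀ j, Q ∣ A' j) ∧
      (∀ j, e j = 1 ∨ e j = -1) ∧
      ∀ (G : K[X]) (j : Fin n), A' j * G + C (b j) ≠ 0 →
        A j * (F₁ + X ^ s * T * G) + B j ≠ 0 ∧
        lam (A j * (F₁ + X ^ s * T * G) + B j) = e j * lam (A' j * G + C (b j))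

/-- CNT: the number of monic polynomials of degree `m` in a class modulo `S`. -/
def StmCNT : Prop :=
  ∀ (K : Type u) [Field K] [Fintype K] (S h₀ : K[X]), S.Monic → ∀ m : ℕ, S.natDegree ≤ m →
    Fintype.card K ^ (m - S.natDegree) ≤
      {h : K[X] | h.Monic ∧ h.natDegree = m ∧ S ∣ h - h₀}.ncard

/-- MAIN: all sign patterns for arbitrary pairwise non-proportional linear forms. -/
def StmMAIN : Prop :=
  ∀ (K : Type u) [Field K] [Fintype K] (p : ℕ) [Fact p.Prime] [CharP K p], p ≠ 2 →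
    ∀ (n : ℕ) (A B : Fin n → K[X]),
    (∀ j, A j ≠ 0) → (∀ i j, i ≠ j → A i * B j ≠ A j * B i) →
    ∀ ε : Fin n → ℤ, (∀ j, ε j = 1 ∨ ε j = -1) →
    ∃ r : ℕ, ∀ N m : ℕ, p * (m + r) ≤ N →
      Fintype.card K ^ m ≤ {F : K[X] | F.Monic ∧ F.natDegree = N ∧
        ∀ j, A j * F + B j ≠ 0 ∧ lam (A j * F + B j) = ε j}.ncard

/-- The polynomial with the base `q` digits of `k`, for a bijection `e : Fin q ≃ K`. -/
noncomputable def phi {K : Type u} [Field K] [Fintype K] (e : Fin (Fintype.card K) ≃ K) (k : ℕ) :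
    K[X] :=
  ∑ i ∈ Finset.range k, C (e ⟨k / Fintype.card K ^ i % Fintype.card K,
    Nat.mod_lt _ Fintype.card_pos⟩) * X ^ i

/-- ENUM: consecutive polynomials in the lexicographic enumeration `phi e`. -/
def StmENUM : Prop :=
  ∀ (K : Type u) [Field K] [Fintype K] (p : ℕ) [Fact p.Prime] [CharP K p], p ≠ 2 →
    ∀ e : Fin (Fintype.card K) ≃ K, e ⟨0, Fintype.card_pos⟩ = 0 →
    ∀ (n : ℕ) (ε : Fin n → ℤ), (∀ j, ε j = 1 ∨ ε j = -1) → ∀ M : ℕ,
      ∃ m : ℕ, M ≤ m ∧ ∀ j : Fin n, lam (phi e (m + 1 + j)) = ε j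

end Pool.Agent.W269.BL
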